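import Pool.Agent.Helper185.DelNoP

/-!
If the `γ_p`-properties for all `p` imply the `γ`-property for sets of reals, then `𝔡 = ℵ₁`
implies the existence of a P-point.
-/

namespace Pool.Agent.Results.MP_e258b5_gt.ImplicationGivesPPoint

open Pool.Agent.Helper185.Del

/-- If every infinite set of reals which has the `γ_p`-property for every nonprincipal ultrafilter
`p` has the `γ`-property, then `𝔡 = ℵ₁` implies that there is a P-point. -/
theorem result :
    (∀ X : Set ℝ, X.Infinite → (∀ p : Ultrafilter ℕ, Nonprincipal p → GammaP p X) →
      GammaProperty X) →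
      domNumber = Cardinal.aleph 1 → ∃ p : Ultrafilter ℕ, IsPPoint p := by
  intro h hd
  by_contra hno
  push Not at hno
  obtain ⟨X, h1, h2, h3⟩ := exists_real4 hd hno
  exact h3 (h X h1 h2)

end Pool.Agent.Results.MP_e258b5_gt.ImplicationGivesPPoint
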