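import Pool.Agent.Helper185.DelNoP

/-!
If the dominating number is `ℵ₁` and there are no P-points, then some set of reals has the
`γ_p`-property for every nonprincipal ultrafilter `p`, but not the `γ`-property.
-/

namespace Pool.Agent.Results.MP_e258b5_gt.NoPPoints

open Pool.Agent.Helper185.Del

/-- If the dominating number is `ℵ₁` and there are no P-points, then there is an infinite set of
reals which has the `γ_p`-property for every nonprincipal ultrafilter `p` and does not have the
`γ`-property. -/
theorem result (hd : domNumber = Cardinal.aleph 1) (hno : ∀ p : Ultrafilter ℕ, ¬ IsPPoint p) :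
    ∃ X : Set ℝ, X.Infinite ∧ (∀ p : Ultrafilter ℕ, Nonprincipal p → GammaP p X) ∧
      ¬ GammaProperty X :=
  exists_real4 hd hno

end Pool.Agent.Results.MP_e258b5_gt.NoPPoints
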